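import Mathlib.Combinatorics.SimpleGraph.Connectivity.Connected
import Mathlib.GroupTheory.Perm.Cycle.Basic
import Mathlib.Order.Interval.Finset.Nat
import Mathlib.Data.Nat.Nth
import Mathlib.Data.ZMod.Basic
import Mathlib.Tactic

namespace Pool.Agent.Results.MP_c5a801_co.AllTransient

open Finset

/-- A rotor mechanism: at every vertex a cyclic ordering of the neighbours, given as a
permutation of the neighbours (the successor map) that is a single cycle. -/
structure RotorMechanism {V : Type} (G : SimpleGraph V) where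
  next : (v : V) → Equiv.Perm (G.neighborSet v)
  isCycleOn : ∀ v, (next v).IsCycleOn Set.univ

/-- A rotor configuration assigns to every vertex one of its neighbours. -/
abbrev RotorConfig {V : Type} (G : SimpleGraph V) := (v : V) → G.neighborSet v

section Walk

variable {V : Type} {G : SimpleGraph V}

open Classical in
/-- One step of the rotor walk: the rotor at the position of the particle is advanced to its
successor, and the particle moves to the neighbour it now points to. -/
noncomputable def step (m : RotorMechanism G) (s : V × RotorConfig G) : V × RotorConfig G :=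
  ((m.next s.1 (s.2 s.1) : V), Function.update s.2 s.1 (m.next s.1 (s.2 s.1)))

/-- The rotor walk `(x_t, r_t)` from start vertex `x₀` and configuration `r₀`. -/
noncomputable def walk (m : RotorMechanism G) (x₀ : V) (r₀ : RotorConfig G) :
    ℕ → V × RotorConfig G
  | 0 => (x₀, r₀)
  | t + 1 => step m (walk m x₀ r₀ t)

/-- Every vertex is visited finitely often. -/
def IsTransient (m : RotorMechanism G) (x₀ : V) (r₀ : RotorConfig G) : Prop :=
  ∀ v, {t : ℕ | (walk m x₀ r₀ t).1 = v}.Finite

/-- Every vertex is visited infinitely often. -/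
def IsRecurrent (m : RotorMechanism G) (x₀ : V) (r₀ : RotorConfig G) : Prop :=
  ∀ v, {t : ℕ | (walk m x₀ r₀ t).1 = v}.Infinite

variable (m : RotorMechanism G) (x₀ : V) (r₀ : RotorConfig G)

open Classical in
lemma rotor_eq (v : V) (t : ℕ) :
    (walk m x₀ r₀ t).2 v
      = ((m.next v) ^ (Nat.count (fun s => (walk m x₀ r₀ s).1 = v) t)) (r₀ v) := by
  induction t with
  | zero => simp [walk]
  | succ t ih =>
    rw [Nat.count_succ]
    by_cases h : (walk m x₀ r₀ t).1 = v
    · subst h
      rw [if_pos rfl, pow_succ', Equiv.Perm.mul_apply, ← ih]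
      simp [walk, step]
    · rw [if_neg h, add_zero, ← ih]
      simp only [walk, step]
      rw [Function.update_of_ne (fun h' => h h'.symm)]

lemma rotor_self (t : ℕ) : (walk m x₀ r₀ (t + 1)).2 (walk m x₀ r₀ t).1
    = m.next (walk m x₀ r₀ t).1 ((walk m x₀ r₀ t).2 (walk m x₀ r₀ t).1) := by
  simp [walk, step]

lemma rotor_ne (t : ℕ) (v : V) (hv : v ≠ (walk m x₀ r₀ t).1) :
    (walk m x₀ r₀ (t + 1)).2 v = (walk m x₀ r₀ t).2 v := by
  classical
  simp only [walk, step]
  rw [Function.update_of_ne hv]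

/-- If a vertex is visited infinitely often, so are its neighbours. -/
lemma visits_neighbor (hfin : ∀ v, (G.neighborSet v).Finite) (v u : V) (huv : G.Adj v u)
    (hv : {t : ℕ | (walk m x₀ r₀ t).1 = v}.Infinite) :
    {t : ℕ | (walk m x₀ r₀ t).1 = u}.Infinite := by
  classical
  have : Fintype (G.neighborSet v) := (hfin v).fintype
  set p : ℕ → Prop := fun t => (walk m x₀ r₀ t).1 = v with hp
  have hpinf : (Set.ofPred p).Infinite := hv
  have hcyc : (m.next v).IsCycleOn (univ : Finset (G.neighborSet v)) := by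
    simpa using m.isCycleOn v
  set u' : G.neighborSet v := ⟨u, huv⟩ with hu'
  obtain ⟨n0, -, hn0⟩ := hcyc.exists_pow_eq (mem_univ (m.next v (r₀ v))) (mem_univ u')
  have hcard : 1 ≤ Fintype.card (G.neighborSet v) := Fintype.card_pos_iff.mpr ⟨u'⟩
  rw [Set.infinite_iff_exists_gt]
  intro B
  set k := n0 + Fintype.card (G.neighborSet v) * (B + 1) with hk
  have hkpow : ((m.next v) ^ k) (m.next v (r₀ v)) = u' := by
    rw [← hn0]
    rw [hcyc.pow_apply_eq_pow_apply (mem_univ _), card_univ, hk]
    simp [Nat.ModEq]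
  have hkB : B + 1 ≤ k := by nlinarith
  set t := Nat.nth p k with ht
  have hpt : p t := Nat.nth_mem_of_infinite hpinf k
  have hct : Nat.count p t = k := Nat.count_nth_of_infinite hpinf k
  have htk : k ≤ t := (Nat.nth_strictMono hpinf).id_le k
  refine ⟨t + 1, ?_, by omega⟩
  show (walk m x₀ r₀ (t + 1)).1 = u
  have h1 : (walk m x₀ r₀ (t + 1)).1 = ((walk m x₀ r₀ (t + 1)).2 v : V) := by
    have h2 : (walk m x₀ r₀ t).1 = v := hpt
    simp only [walk, step]
    rw [h2]
    simp
  rw [h1, rotor_eq, Nat.count_succ]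
  rw [if_pos (show (walk m x₀ r₀ t).1 = v from hpt)]
  have h3 : Nat.count (fun s => (walk m x₀ r₀ s).1 = v) t = k := hct
  rw [h3, pow_succ, Equiv.Perm.mul_apply, hkpow]

/-- If some vertex is visited finitely often in a connected graph, then all are. -/
lemma transient_of_finite (hfin : ∀ v, (G.neighborSet v).Finite) (hconn : G.Connected) (o : V)
    (ho : {t : ℕ | (walk m x₀ r₀ t).1 = o}.Finite) : IsTransient m x₀ r₀ := by
  intro v
  by_contra hv
  have hv' : {t : ℕ | (walk m x₀ r₀ t).1 = v}.Infinite := hv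
  obtain ⟨q⟩ := hconn.preconnected v o
  have key : ∀ (a b : V) (q : G.Walk a b), {t : ℕ | (walk m x₀ r₀ t).1 = a}.Infinite →
      {t : ℕ | (walk m x₀ r₀ t).1 = b}.Infinite := by
    intro a b q
    induction q with
    | nil => exact id
    | cons h _ ih => exact fun ha => ih (visits_neighbor m x₀ r₀ hfin _ _ h ha)
  exact key v o q hv' ho

end Walk

/-! ### The layered graph -/

/-- The vertices: level `k` has `2 ^ k` vertices. -/
abbrev Vx := Σ k : ℕ, Fin (2 ^ k)

/-- Two vertices are adjacent when their levels differ by one. -/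
def L : SimpleGraph Vx where
  Adj u v := u.1 = v.1 + 1 ∨ v.1 = u.1 + 1
  symm := ⟨fun _ _ h => h.symm⟩
  loopless := ⟨fun v h => by rcases h with h | h <;> omega⟩

lemma vx_ext {u v : Vx} (h1 : u.1 = v.1) (h2 : (u.2 : ℕ) = v.2) : u = v := by
  obtain ⟨k, i⟩ := u
  obtain ⟨l, j⟩ := v
  simp only at h1
  subst h1
  congr 1
  exact Fin.ext h2

/-- The position of the neighbour `u` in the cyclic ordering at `v`: one neighbour on the level
above `v` (nearer to the root) is followed by four neighbours on the next level. -/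
def posn (v u : Vx) : ℕ :=
  if v.1 = 0 then u.2 else if u.1 < v.1 then 5 * u.2 else 5 * (u.2 / 4) + u.2 % 4 + 1

/-- The number of neighbours of `v`. -/
def num (v : Vx) : ℕ := if v.1 = 0 then 2 else 5 * 2 ^ (v.1 - 1)

lemma num_ge (v : Vx) : 2 ≤ num v := by
  unfold num
  split_ifs
  · exact le_rfl
  · have : 1 ≤ 2 ^ (v.1 - 1) := Nat.one_le_two_pow
    omega

instance (v : Vx) : NeZero (num v) := ⟨by have := num_ge v; omega⟩

lemma posn_lt (v u : Vx) (h : L.Adj v u) : posn v u < num v := by
  obtain ⟨k, i⟩ := v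
  obtain ⟨l, j⟩ := u
  have h' : k = l + 1 ∨ l = k + 1 := h
  unfold posn num
  simp only
  by_cases hk : k = 0
  · subst hk
    have hl : l = 1 := by omega
    subst hl
    have := j.2
    simp only [if_true]
    simpa using this
  · rw [if_neg hk, if_neg hk]
    rcases h' with h' | h'
    · rw [if_pos (by omega)]
      subst h'
      have := j.2
      simp only [Nat.add_sub_cancel]
      omega
    · rw [if_neg (by omega)]
      obtain ⟨k', rfl⟩ := Nat.exists_eq_succ_of_ne_zero hk
      have hj := j.2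
      have hj2 : (j : ℕ) < 4 * 2 ^ k' := by
        have : 2 ^ l = 4 * 2 ^ k' := by rw [h', Nat.succ_eq_add_one]; ring
        omega
      simp only [Nat.succ_eq_add_one, Nat.add_sub_cancel]
      omega

/-- The enumeration of the neighbours of `v`. -/
noncomputable def ord (v : Vx) : L.neighborSet v ≃ Fin (num v) :=
  Equiv.ofBijective (fun u => ⟨posn v u, posn_lt v u u.2⟩) (by
    constructor
    · rintro ⟨u, hu⟩ ⟨w, hw⟩ h
      have h' : posn v u = posn v w := congrArg Fin.val h
      apply Subtype.ext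
      show u = w
      have hu' : v.1 = u.1 + 1 ∨ u.1 = v.1 + 1 := hu
      have hw' : v.1 = w.1 + 1 ∨ w.1 = v.1 + 1 := hw
      unfold posn at h'
      by_cases hv : v.1 = 0
      · rw [if_pos hv, if_pos hv] at h'
        exact vx_ext (by omega) h'
      · rw [if_neg hv, if_neg hv] at h'
        rcases hu' with hu' | hu' <;> rcases hw' with hw' | hw'
        · rw [if_pos (by omega), if_pos (by omega)] at h'
          exact vx_ext (by omega) (by omega)
        · rw [if_pos (by omega), if_neg (by omega)] at h'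
          omega
        · rw [if_neg (by omega), if_pos (by omega)] at h'
          omega
        · rw [if_neg (by omega), if_neg (by omega)] at h'
          exact vx_ext (by omega) (by omega)
    · rintro ⟨p, hp⟩
      by_cases hv : v.1 = 0
      · have hp2 : p < 2 ^ 1 := by
          unfold num at hp; rw [if_pos hv] at hp; simpa using hp
        refine ⟨⟨⟨1, ⟨p, hp2⟩⟩, Or.inr (by simpa using hv)⟩, ?_⟩
        apply Fin.ext
        show posn v ⟨1, ⟨p, hp2⟩⟩ = p
        unfold posn
        rw [if_pos hv]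
      · have hp2 : p < 5 * 2 ^ (v.1 - 1) := by
          unfold num at hp; rw [if_neg hv] at hp; exact hp
        by_cases hp5 : p % 5 = 0
        · have hlt : p / 5 < 2 ^ (v.1 - 1) := by omega
          refine ⟨⟨⟨v.1 - 1, ⟨p / 5, hlt⟩⟩, Or.inl (by show v.1 = v.1 - 1 + 1; omega)⟩, ?_⟩
          apply Fin.ext
          show posn v ⟨v.1 - 1, ⟨p / 5, hlt⟩⟩ = p
          unfold posn
          rw [if_neg hv, if_pos (by show v.1 - 1 < v.1; omega)]
          show 5 * (p / 5) = p
          omega
        · have hpow : 2 ^ (v.1 + 1) = 4 * 2 ^ (v.1 - 1) := by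
            have : v.1 + 1 = (v.1 - 1) + 2 := by omega
            rw [this, pow_add]; ring
          have hlt : 4 * (p / 5) + (p % 5 - 1) < 2 ^ (v.1 + 1) := by omega
          refine ⟨⟨⟨v.1 + 1, ⟨4 * (p / 5) + (p % 5 - 1), hlt⟩⟩, Or.inr rfl⟩, ?_⟩
          apply Fin.ext
          show posn v ⟨v.1 + 1, ⟨4 * (p / 5) + (p % 5 - 1), hlt⟩⟩ = p
          unfold posn
          rw [if_neg hv, if_neg (by show ¬ (v.1 + 1 < v.1); omega)]
          show 5 * ((4 * (p / 5) + (p % 5 - 1)) / 4) + (4 * (p / 5) + (p % 5 - 1)) % 4 + 1 = p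
          omega)

lemma ord_val (v : Vx) (u : L.neighborSet v) : ((ord v u : Fin (num v)) : ℕ) = posn v u := rfl

lemma ofNat_succ (v : Vx) (k : ℕ) :
    Fin.ofNat (num v) (k + 1) = Fin.ofNat (num v) k + 1 := by
  have h2 := num_ge v
  apply Fin.ext
  rw [Fin.val_add]
  simp [Fin.ofNat]

lemma ofNat_self (v : Vx) (x : Fin (num v)) : Fin.ofNat (num v) (x : ℕ) = x := by
  apply Fin.ext
  simp only [Fin.ofNat]
  exact Nat.mod_eq_of_lt x.2

/-- The mechanism: the rotor moves to the next position. -/
noncomputable def mech : RotorMechanism L where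
  next v := ((ord v).trans (Equiv.addRight (1 : Fin (num v)))).trans (ord v).symm
  isCycleOn v := by
    have hpow : ∀ (k : ℕ) (u : L.neighborSet v),
        (((((ord v).trans (Equiv.addRight (1 : Fin (num v)))).trans (ord v).symm :
          Equiv.Perm (L.neighborSet v)) ^ k) u)
          = (ord v).symm (ord v u + Fin.ofNat (num v) k) := by
      intro k u
      induction k with
      | zero => simp
      | succ k ih =>
        rw [pow_succ', Equiv.Perm.mul_apply, ih, ofNat_succ]
        simp [add_assoc]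
    refine ⟨?_, ?_⟩
    · exact (Equiv.bijective _).bijOn_univ
    · intro a _ b _
      refine ⟨((ord v b - ord v a : Fin (num v)) : ℕ), ?_⟩
      rw [zpow_natCast, hpow, ofNat_self]
      simp

lemma posn_next (v : Vx) (u : L.neighborSet v) :
    posn v (mech.next v u) = (posn v u + 1) % num v := by
  rw [← ord_val, ← ord_val]
  have h2 := num_ge v
  have : ord v (mech.next v u) = ord v u + 1 := by simp [mech]
  rw [this, Fin.val_add, Fin.val_one', Nat.mod_eq_of_lt (show 1 < num v by omega)]

/-! ### The potential -/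

/-- The harmonic function. -/
noncomputable def h (v : Vx) : ℝ := 4 / 3 * (1 / 4) ^ v.1

/-- The weight of a rotor position. -/
noncomputable def wt (v u : Vx) : ℝ :=
  if v.1 = 0 then 0 else -((4 - ((posn v u % 5 : ℕ) : ℝ)) * (1 / 4) ^ v.1)

lemma wt_le (v u : Vx) : wt v u ≤ 0 := by
  unfold wt
  split_ifs
  · exact le_rfl
  · have h1 : ((posn v u % 5 : ℕ) : ℝ) ≤ 4 := by
      have : posn v u % 5 ≤ 4 := by omega
      exact_mod_cast this
    have h2 : (0:ℝ) < (1 / 4) ^ v.1 := by positivity
    nlinarith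

lemma le_wt (v u : Vx) (hv : v.1 ≠ 0) : -(4 * (1 / 4) ^ v.1) ≤ wt v u := by
  unfold wt
  rw [if_neg hv]
  have h1 : (0:ℝ) ≤ ((posn v u % 5 : ℕ) : ℝ) := Nat.cast_nonneg _
  have h2 : (0:ℝ) < (1 / 4) ^ v.1 := by positivity
  nlinarith

/-- The potential is unchanged by a step from a vertex other than the root. -/
lemma balance (v : Vx) (hv : v.1 ≠ 0) (u : L.neighborSet v) :
    h (mech.next v u : Vx) + wt v (mech.next v u : Vx) = h v + wt v u := by
  obtain ⟨k, hk⟩ := Nat.exists_eq_succ_of_ne_zero hv
  rw [Nat.succ_eq_add_one] at hk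
  set w : Vx := (mech.next v u : Vx) with hw
  have hadj : v.1 = w.1 + 1 ∨ w.1 = v.1 + 1 := (mech.next v u).2
  have hpos : posn v w = (posn v u + 1) % num v := posn_next v u
  have hnum : num v = 5 * 2 ^ k := by
    unfold num; rw [if_neg hv, hk, Nat.add_sub_cancel]
  have hmod : posn v w % 5 = (posn v u + 1) % 5 := by
    rw [hpos, hnum]
    exact Nat.mod_mul_right_mod _ _ _
  have hwt : ∀ z, wt v z = -((4 - ((posn v z % 5 : ℕ) : ℝ)) * (1 / 4) ^ v.1) := by
    intro z; unfold wt; rw [if_neg hv]
  rw [hwt, hwt]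
  rcases hadj with hadj | hadj
  · -- up
    have hp0 : posn v w % 5 = 0 := by
      unfold posn; rw [if_neg hv, if_pos (by omega)]; omega
    have hp4 : posn v u % 5 = 4 := by omega
    rw [hp0, hp4]
    unfold h
    rw [hadj, pow_succ]
    push_cast
    ring
  · have hp0 : posn v w % 5 ≠ 0 := by
      unfold posn; rw [if_neg hv, if_neg (by omega)]; omega
    have hp1 : posn v w % 5 = posn v u % 5 + 1 := by omega
    rw [hp1]
    unfold h
    rw [hadj, pow_succ]
    push_cast
    ring

/-- The root. -/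
def root : Vx := ⟨0, ⟨0, by norm_num⟩⟩

lemma eq_root {v : Vx} (hv : v.1 = 0) : v = root := by
  apply vx_ext hv
  obtain ⟨k, i⟩ := v
  have hk : k = 0 := hv
  subst hk
  have := i.2
  simp only [root]
  have h1 : (i : ℕ) < 1 := by simp
  omega

/-- The vertices of level at most `K`. -/
def upto (K : ℕ) : Finset Vx := (range (K + 1)).sigma (fun _ => univ)

lemma mem_upto {K : ℕ} {v : Vx} : v ∈ upto K ↔ v.1 ≤ K := by
  simp [upto]

section Bound

variable (x₀ : Vx) (r₀ : RotorConfig L)

lemma level_le (t : ℕ) : (walk mech x₀ r₀ t).1.1 ≤ x₀.1 + t := by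
  induction t with
  | zero => simp [walk]
  | succ t ih =>
    have hadj := (mech.next (walk mech x₀ r₀ t).1 ((walk mech x₀ r₀ t).2 (walk mech x₀ r₀ t).1)).2
    have h1 : (walk mech x₀ r₀ (t + 1)).1
      = (mech.next (walk mech x₀ r₀ t).1 ((walk mech x₀ r₀ t).2 (walk mech x₀ r₀ t).1) : Vx) := rfl
    rw [h1]
    have h2 : (walk mech x₀ r₀ t).1.1 = (mech.next (walk mech x₀ r₀ t).1
        ((walk mech x₀ r₀ t).2 (walk mech x₀ r₀ t).1) : Vx).1 + 1 ∨
        (mech.next (walk mech x₀ r₀ t).1
        ((walk mech x₀ r₀ t).2 (walk mech x₀ r₀ t).1) : Vx).1 = (walk mech x₀ r₀ t).1.1 + 1 := hadj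
    omega

open Classical in
lemma potential (K : ℕ) (t : ℕ) (ht : x₀.1 + t ≤ K) :
    h (walk mech x₀ r₀ t).1
      + ∑ v ∈ upto K, (wt v ((walk mech x₀ r₀ t).2 v) - wt v (r₀ v))
      + (Nat.count (fun s => (walk mech x₀ r₀ s).1 = root) t : ℝ) = h x₀ := by
  induction t with
  | zero => simp [walk]
  | succ t ih =>
    have ih' := ih (by omega)
    set x := (walk mech x₀ r₀ t).1 with hx
    set r := (walk mech x₀ r₀ t).2 with hr
    have hx' : (walk mech x₀ r₀ (t + 1)).1 = (mech.next x (r x) : Vx) := rfl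
    have hr1 : (walk mech x₀ r₀ (t + 1)).2 x = mech.next x (r x) := rotor_self mech x₀ r₀ t
    have hr2 : ∀ v, v ≠ x → (walk mech x₀ r₀ (t + 1)).2 v = r v := fun v hv =>
      rotor_ne mech x₀ r₀ t v hv
    have hlev : x.1 ≤ x₀.1 + t := level_le x₀ r₀ t
    have hmem : x ∈ upto K := mem_upto.mpr (by omega)
    have hsum : ∑ v ∈ upto K, (wt v ((walk mech x₀ r₀ (t + 1)).2 v) - wt v (r₀ v))
        = ∑ v ∈ upto K, (wt v (r v) - wt v (r₀ v))
          + (wt x (mech.next x (r x) : Vx) - wt x (r x)) := by
      rw [← sub_eq_iff_eq_add', ← sum_sub_distrib]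
      rw [sum_eq_single x]
      · rw [hr1]; ring
      · intro v _ hv
        rw [hr2 v hv]; ring
      · exact fun h => absurd hmem h
    rw [hx', hsum, Nat.count_succ]
    by_cases hx0 : x.1 = 0
    · have hroot : x = root := eq_root hx0
      rw [if_pos (show (walk mech x₀ r₀ t).1 = root from hroot)]
      have hadj : x.1 = (mech.next x (r x) : Vx).1 + 1 ∨ (mech.next x (r x) : Vx).1 = x.1 + 1 :=
        (mech.next x (r x)).2
      have hl : (mech.next x (r x) : Vx).1 = 1 := by omega
      have e1 : h (mech.next x (r x) : Vx) = 1 / 3 := by unfold h; rw [hl]; norm_num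
      have e2 : h x = 4 / 3 := by unfold h; rw [hx0]; norm_num
      have e3 : wt x (mech.next x (r x) : Vx) = 0 := by unfold wt; rw [if_pos hx0]
      have e4 : wt x (r x) = 0 := by unfold wt; rw [if_pos hx0]
      rw [e1, e3, e4]
      rw [e2] at ih'
      push_cast
      linarith
    · rw [if_neg (show ¬ (walk mech x₀ r₀ t).1 = root from by
        intro h'; apply hx0; rw [hx, h']; rfl)]
      have hb := balance x hx0 (r x)
      push_cast
      linarith

open Classical in
lemma count_le (t : ℕ) :
    (Nat.count (fun s => (walk mech x₀ r₀ s).1 = root) t : ℝ) ≤ 6 := by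
  set K := x₀.1 + t with hK
  have hp := potential x₀ r₀ K t le_rfl
  have h1 : 0 ≤ h (walk mech x₀ r₀ t).1 := by unfold h; positivity
  have h2 : h x₀ ≤ 4 / 3 := by
    unfold h
    have : ((1:ℝ) / 4) ^ x₀.1 ≤ 1 := pow_le_one₀ (by norm_num) (by norm_num)
    linarith
  have h3 : -4 ≤ ∑ v ∈ upto K, (wt v ((walk mech x₀ r₀ t).2 v) - wt v (r₀ v)) := by
    have h4 : ∀ v ∈ upto K, (if v.1 = 0 then (0:ℝ) else -(4 * (1 / 4) ^ v.1))
        ≤ wt v ((walk mech x₀ r₀ t).2 v) - wt v (r₀ v) := by
      intro v _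
      split_ifs with hv
      · have : ∀ u, wt v u = 0 := fun u => by unfold wt; rw [if_pos hv]
        rw [this, this]; simp
      · linarith [wt_le v (r₀ v), le_wt v ((walk mech x₀ r₀ t).2 v) hv]
    refine le_trans ?_ (sum_le_sum h4)
    unfold upto
    rw [sum_sigma]
    simp only [sum_const, card_univ, Fintype.card_fin, nsmul_eq_mul]
    rw [sum_range_succ']
    simp only [Nat.add_eq_zero_iff, one_ne_zero, and_false, if_false, if_true, mul_zero, add_zero]
    have h5 : ∀ j : ℕ, ((2 ^ (j + 1) : ℕ) : ℝ) * -(4 * (1 / 4) ^ (j + 1)) = -2 * (1 / 2) ^ j := by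
      intro j
      have : ((1:ℝ) / 4) ^ (j + 1) = (1 / 2) ^ (j + 1) * (1 / 2) ^ (j + 1) := by
        rw [← mul_pow]; norm_num
      rw [this]
      push_cast
      have h6 : (2:ℝ) ^ (j + 1) * (1 / 2) ^ (j + 1) = 1 := by rw [← mul_pow]; norm_num
      have h7 : (2:ℝ) ^ (j + 1) * -(4 * ((1 / 2) ^ (j + 1) * (1 / 2) ^ (j + 1)))
          = -4 * (2 ^ (j + 1) * (1 / 2) ^ (j + 1)) * (1 / 2) ^ (j + 1) := by ring
      rw [h7, h6, pow_succ]; ring
    rw [sum_congr rfl (fun j _ => h5 j), ← mul_sum]
    have h8 : ∑ j ∈ range K, ((1:ℝ) / 2) ^ j ≤ 2 := by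
      rw [geom_sum_eq (by norm_num)]
      have : (0:ℝ) < (1 / 2) ^ K := by positivity
      rw [div_le_iff_of_neg (by norm_num)]
      linarith
    linarith
  linarith

lemma root_finite : {t : ℕ | (walk mech x₀ r₀ t).1 = root}.Finite := by
  classical
  by_contra hinf
  have hinf' : (Set.ofPred (fun s => (walk mech x₀ r₀ s).1 = root)).Infinite := hinf
  have h1 := count_le x₀ r₀ (Nat.nth (fun s => (walk mech x₀ r₀ s).1 = root) 7)
  rw [Nat.count_nth_of_infinite hinf'] at h1
  norm_num at h1

end Bound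

lemma L_connected : L.Connected := by
  have hup : ∀ (k : ℕ) (i : Fin (2 ^ k)), L.Reachable ⟨k, i⟩ root := by
    intro k
    induction k with
    | zero => intro i; rw [eq_root (v := ⟨0, i⟩) rfl]
    | succ k ih =>
      intro i
      have hadj : L.Adj ⟨k + 1, i⟩ ⟨k, ⟨0, by positivity⟩⟩ := Or.inl rfl
      exact hadj.reachable.trans (ih _)
  have : Nonempty Vx := ⟨root⟩
  exact { preconnected := fun u v => (hup u.1 u.2).trans (hup v.1 v.2).symm }

lemma L_locallyFinite (v : Vx) : (L.neighborSet v).Finite := by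
  have : Finite (L.neighborSet v) := Finite.of_equiv _ (ord v).symm
  exact Set.toFinite _

/-- **There is a graph with a rotor mechanism all of whose rotor configurations are transient.** -/
theorem result :
    ∃ (V : Type) (G : SimpleGraph V) (m : RotorMechanism G),
      Infinite V ∧ G.Connected ∧ (∀ v, (G.neighborSet v).Finite) ∧
      ∀ (x₀ : V) (r₀ : RotorConfig G), IsTransient m x₀ r₀ ∧ ¬ IsRecurrent m x₀ r₀ := by
  refine ⟨Vx, L, mech, ?_, L_connected, L_locallyFinite, ?_⟩
  · exact Infinite.of_injective (fun k : ℕ => (⟨k, ⟨0, by positivity⟩⟩ : Vx))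
      (fun a b h => congrArg Sigma.fst h)
  · intro x₀ r₀
    have ht := transient_of_finite mech x₀ r₀ L_locallyFinite L_connected root
      (root_finite x₀ r₀)
    exact ⟨ht, fun hr => hr root (ht root)⟩

end Pool.Agent.Results.MP_c5a801_co.AllTransient
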